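import Pool.Agent.Lib.MP_144d21_co.X4.Iface

/-! PEV: values and derivatives of `PP k s`, and the product with `descPochhammer ℤ a` -/

set_option autoImplicit false

namespace Pool.Agent.Xu.X4.H16

open Finset Polynomial

theorem pp_eval (k : ℕ) (s : ℕ → ℕ) (x : ℤ) :
    (PP k s).eval x = ∏ j ∈ range (k + 1), (x - (j : ℤ)) ^ s j := by
  unfold PP
  rw [eval_prod]
  simp

theorem pp_eval_zero_iff (k : ℕ) (s : ℕ → ℕ) (q : ℕ) :
    (PP k s).eval (q : ℤ) = 0 ↔ q ≤ k ∧ s q ≠ 0 := by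
  rw [pp_eval, prod_eq_zero_iff]
  constructor
  · rintro ⟨j, hj, h⟩
    have hs : s j ≠ 0 := by
      intro h0
      rw [h0, pow_zero] at h
      exact one_ne_zero h
    have h2 : (q : ℤ) - (j : ℤ) = 0 := pow_eq_zero_iff hs |>.1 h
    have h3 : q = j := by omega
    subst h3
    exact ⟨by have := mem_range.1 hj; omega, hs⟩
  · rintro ⟨hq, hs⟩
    exact ⟨q, mem_range.2 (by omega), by rw [sub_self]; exact zero_pow hs⟩

theorem pp_split (k : ℕ) (s : ℕ → ℕ) (i : ℕ) (hi : i ≤ k) :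
    PP k s = (X - C (i : ℤ)) ^ s i * ∏ j ∈ (range (k + 1)).erase i, (X - C (j : ℤ)) ^ s j := by
  unfold PP
  rw [mul_prod_erase (range (k + 1)) (fun j : ℕ => (X - C (j : ℤ)) ^ s j)
    (mem_range.2 (by omega))]

theorem pp_deriv_zero (k : ℕ) (s : ℕ → ℕ) (i : ℕ) (hi : i ≤ k) (h2 : 2 ≤ s i) :
    (derivative (PP k s)).eval (i : ℤ) = 0 := by
  rw [pp_split k s i hi]
  obtain ⟨m, hm⟩ : ∃ m, s i = m + 2 := ⟨s i - 2, by omega⟩
  rw [hm, derivative_mul, derivative_pow]
  simp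

theorem pp_natDegree (k : ℕ) (s : ℕ → ℕ) :
    (PP k s).natDegree = ∑ j ∈ range (k + 1), s j := by
  unfold PP
  rw [natDegree_prod_of_monic _ _ (fun j _ => (monic_X_sub_C _).pow _)]
  refine sum_congr rfl fun j _ => ?_
  rw [(monic_X_sub_C (j : ℤ)).natDegree_pow, natDegree_X_sub_C, mul_one]

theorem pp_one (k : ℕ) (s : ℕ → ℕ) (hk : 1 ≤ k) (h0 : s 0 = 1) (h1 : s 1 = 1) :
    (-1) ^ (PP k s).natDegree * (derivative (PP k s)).eval 1 =
      ∏ j ∈ Ico 2 (k + 1), ((j : ℤ) - 1) ^ s j := by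
  have hsplit : ∀ {M : Type} [CommMonoid M] (f : ℕ → M),
      ∏ j ∈ range (k + 1), f j = f 0 * (f 1 * ∏ j ∈ Ico 2 (k + 1), f j) := by
    intro M _ f
    rw [range_eq_Ico, prod_eq_prod_Ico_succ_bot (by omega : 0 < k + 1),
      prod_eq_prod_Ico_succ_bot (by omega : 0 + 1 < k + 1)]
  have hdeg : (PP k s).natDegree = 2 + ∑ j ∈ Ico 2 (k + 1), s j := by
    rw [pp_natDegree, range_eq_Ico, sum_eq_sum_Ico_succ_bot (by omega : 0 < k + 1),
      sum_eq_sum_Ico_succ_bot (by omega : 0 + 1 < k + 1)]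
    have e1 : s (0 + 1) = 1 := h1
    rw [h0, e1]
    simp only [zero_add, Nat.reduceAdd]
    omega
  have hder : (derivative (PP k s)).eval 1 = ∏ j ∈ Ico 2 (k + 1), ((1 : ℤ) - (j : ℤ)) ^ s j := by
    have hP : PP k s = X * ((X - C (1 : ℤ)) * ∏ j ∈ Ico 2 (k + 1), (X - C (j : ℤ)) ^ s j) := by
      unfold PP
      rw [hsplit, h0, h1]
      simp
    rw [hP, derivative_mul, derivative_mul]
    simp [eval_prod]
  rw [hdeg, hder, pow_add, ← prod_pow_eq_pow_sum]
  have : ((-1 : ℤ)) ^ 2 = 1 := by norm_num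
  rw [this, one_mul, ← prod_mul_distrib]
  refine prod_congr rfl fun j _ => ?_
  rw [← mul_pow]
  congr 1
  ring

theorem pp_desc (k : ℕ) (s : ℕ → ℕ) (a : ℕ) (ha : a ≤ k + 1) :
    descPochhammer ℤ a * PP k s = PP k fun j => s j + if j < a then 1 else 0 := by
  have h1 : ∀ b : ℕ, descPochhammer ℤ b = ∏ j ∈ range b, (X - C (j : ℤ)) := by
    intro b
    induction b with
    | zero => simp
    | succ b ih =>
      rw [descPochhammer_succ_right, ih, prod_range_succ]
      simp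
  have h2 : ∏ j ∈ range a, (X - C (j : ℤ)) =
      ∏ j ∈ range (k + 1), (X - C (j : ℤ)) ^ (if j < a then 1 else 0) := by
    symm
    rw [← prod_subset (range_subset_range.2 ha)]
    · refine prod_congr rfl fun j hj => ?_
      rw [if_pos (mem_range.1 hj), pow_one]
    · intro j _ hj
      rw [if_neg (fun h => hj (mem_range.2 h)), pow_zero]
  rw [h1, h2]
  unfold PP
  rw [← prod_mul_distrib]
  refine prod_congr rfl fun j _ => ?_
  rw [← pow_add, add_comm]

theorem pev : PevS := by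
  intro k s
  refine ⟨pp_eval_zero_iff k s, fun h => ?_, fun hk h => ?_, fun hk h0 h1 => pp_one k s hk h0 h1,
    fun a ha => pp_desc k s a ha⟩
  · have := pp_deriv_zero k s 0 (Nat.zero_le k) h
    simpa using this
  · have := pp_deriv_zero k s 1 hk h
    simpa using this

end Pool.Agent.Xu.X4.H16
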